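import Pool.Agent.X304.Cd.Cell

/-!
# The averages over equal intervals converge
-/

set_option autoImplicit false

open MeasureTheory Filter Topology Set
open scoped ENNReal NNReal

namespace Pool.Agent.X304.Cd

open Pool.Agent.Helper234.LInf Pool.Agent.Helper234.LInfS

section

variable {𝕜 : Type} [RCLike 𝕜] {r : ℝ≥0∞} [hr1 : Fact (1 ≤ r)]

/-- Dominated convergence in `L_r`. -/
lemma tendsto_Lp_dom (hr : r ≠ ∞) {u : ℕ → Lp 𝕜 r I01} {v : Lp 𝕜 r I01} {h : ℝ → ℝ}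
    (hh : MemLp h r I01) (hb : ∀ n, ∀ᵐ t ∂I01, ‖u n t‖ ≤ h t)
    (hlim : ∀ᵐ t ∂I01, Tendsto (fun n => u n t) atTop (𝓝 (v t))) : Tendsto u atTop (𝓝 v) := by
  have h0 := toReal_pos' hr
  have hr0 : r ≠ 0 := (zero_lt_one.trans_le hr1.out).ne'
  have hv : ∀ᵐ t ∂I01, ‖v t‖ ≤ h t := by
    filter_upwards [ae_all_iff.2 hb, hlim] with t h1 h2
    exact le_of_tendsto h2.norm (Eventually.of_forall h1)
  have h1 : Tendsto (fun n => ∫⁻ t, ‖(u n t - v t)‖ₑ ^ r.toReal ∂I01) atTop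
      (𝓝 (∫⁻ _t, 0 ∂I01)) := by
    apply tendsto_lintegral_of_dominated_convergence' (fun t => ‖2 * h t‖ₑ ^ r.toReal)
    · intro n
      exact (((Lp.aestronglyMeasurable (u n)).sub (Lp.aestronglyMeasurable v)).enorm).pow_const _
    · intro n
      filter_upwards [hb n, hv] with t h1 h2
      gcongr
      rw [← ofReal_norm, ← ofReal_norm]
      apply ENNReal.ofReal_le_ofReal
      have h3 := norm_sub_le (u n t) (v t)
      rw [Real.norm_eq_abs]
      refine le_trans ?_ (le_abs_self _)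
      linarith
    · have h2 := (hh.const_mul 2).2
      rw [eLpNorm_eq_lintegral_rpow_enorm_toReal hr0 hr] at h2
      exact ((ENNReal.rpow_lt_top_iff_of_pos (by positivity)).1 h2).ne
    · filter_upwards [hlim] with t ht
      have h2 : Tendsto (fun n => ‖u n t - v t‖ₑ) atTop (𝓝 0) := by
        have := (ht.sub_const (v t)).enorm
        rwa [sub_self, enorm_zero] at this
      have h3 := (ENNReal.continuous_rpow_const (y := r.toReal)).tendsto 0
      rw [ENNReal.zero_rpow_of_pos h0] at h3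
      exact h3.comp h2
  rw [lintegral_zero] at h1
  rw [tendsto_iff_norm_sub_tendsto_zero]
  have h2 : ∀ n, ‖u n - v‖ = ((∫⁻ t, ‖(u n t - v t)‖ₑ ^ r.toReal ∂I01) ^ (1 / r.toReal)).toReal := by
    intro n
    rw [Lp.norm_def, eLpNorm_congr_ae (Lp.coeFn_sub _ _),
      eLpNorm_eq_lintegral_rpow_enorm_toReal hr0 hr]
    rfl
  simp only [h2]
  have h3 := ((ENNReal.continuous_rpow_const (y := 1 / r.toReal)).tendsto 0).comp h1
  rw [ENNReal.zero_rpow_of_pos (by positivity)] at h3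
  have h4 := (ENNReal.tendsto_toReal ENNReal.zero_ne_top).comp h3
  exact h4

/-- The averages of a continuous function converge. -/
lemma avg_cont (g : BoundedContinuousFunction ℝ 𝕜) (t : ℝ) (ht : t ∈ Ico (0 : ℝ) 1) :
    Tendsto (fun N : ℕ => (N : ℝ) • ∫ s in cell N ⌊(N : ℝ) * t⌋₊, g s ∂I01) atTop (𝓝 (g t)) := by
  rw [Metric.tendsto_atTop]
  intro ε hε
  obtain ⟨δ, hδ, h1⟩ := Metric.continuousAt_iff.1 (g.continuous.continuousAt (x := t)) (ε / 2)
    (by positivity)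
  obtain ⟨N0, hN0⟩ := exists_nat_gt (1 / δ)
  refine ⟨N0 + 1, fun N hN => ?_⟩
  have hNp : 0 < N := by omega
  have hN' : (0 : ℝ) < N := by exact_mod_cast hNp
  have hNδ : 1 / (N : ℝ) < δ := by
    rw [div_lt_comm₀ hN' hδ]
    have : (N0 : ℝ) ≤ N := by exact_mod_cast (by omega : N0 ≤ N)
    linarith
  set j := ⌊(N : ℝ) * t⌋₊ with hj
  have hjN : j < N := floor_lt hNp ht
  have htj : t ∈ cell N j := (mem_cell_iff hNp ht.1).2 rfl
  have h2 : ∀ s ∈ cell N j, ‖g s - g t‖ ≤ ε / 2 := by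
    intro s hs
    rw [← dist_eq_norm]
    apply (h1 _).le
    rw [Real.dist_eq, abs_sub_lt_iff]
    have h3 := hs.1
    have h4 := hs.2
    have h5 := htj.1
    have h6 := htj.2
    have h7 : ((j : ℝ) + 1) / N = j / N + 1 / N := add_div _ _ _
    constructor <;> linarith
  have h3 : (I01 (cell N j)).toReal = (N : ℝ)⁻¹ := by
    rw [I01_cell hjN, ENNReal.toReal_inv, ENNReal.toReal_natCast]
  have h4 : (N : ℝ) • ∫ s in cell N j, g s ∂I01 - g t =
      (N : ℝ) • ∫ s in cell N j, (g s - g t) ∂I01 := by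
    rw [integral_sub, smul_sub, setIntegral_const, Measure.real, h3, smul_smul,
      mul_inv_cancel₀ hN'.ne', one_smul]
    · exact (g.integrable I01).integrableOn
    · exact (integrable_const _).integrableOn
  rw [dist_eq_norm, h4, norm_smul, Real.norm_of_nonneg hN'.le]
  have h5 := norm_setIntegral_le_of_norm_le_const (μ := I01) (measure_lt_top _ (cell N j)) h2
  rw [Measure.real, h3] at h5
  calc (N : ℝ) * ‖∫ s in cell N j, (g s - g t) ∂I01‖ ≤ N * (ε / 2 * (N : ℝ)⁻¹) := by gcongr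
    _ = ε / 2 := by field_simp
    _ < ε := by linarith

variable (𝕜 r)

/-- The averages converge in `L_r`. -/
theorem avg_tendsto (hr : r ≠ ∞) (f : Lp 𝕜 r I01) :
    Tendsto (fun N => beta 𝕜 r hr N (alpha 𝕜 r hr N f)) atTop (𝓝 f) := by
  have hE : ∀ N (f : Lp 𝕜 r I01), ‖beta 𝕜 r hr N (alpha 𝕜 r hr N f)‖ ≤ ‖f‖ := fun N f =>
    (beta_norm_le 𝕜 r hr N _).trans (alpha_norm_le 𝕜 r hr N f)
  have hg : ∀ g : BoundedContinuousFunction ℝ 𝕜,
      Tendsto (fun N => beta 𝕜 r hr N (alpha 𝕜 r hr N (BoundedContinuousFunction.toLp r I01 𝕜 g)))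
        atTop (𝓝 (BoundedContinuousFunction.toLp r I01 𝕜 g)) := by
    intro g
    rw [← tendsto_add_atTop_iff_nat 1]
    have h1 : ∀ N : ℕ, ∀ᵐ t ∂I01, (beta 𝕜 r hr (N + 1) (alpha 𝕜 r hr (N + 1)
        (BoundedContinuousFunction.toLp r I01 𝕜 g)) : ℝ → 𝕜) t =
          ((N + 1 : ℕ) : ℝ) • ∫ s in cell (N + 1) ⌊((N + 1 : ℕ) : ℝ) * t⌋₊, g s ∂I01 := by
      intro N
      filter_upwards [beta_alpha 𝕜 r hr (N + 1) (Nat.succ_pos N)
        (BoundedContinuousFunction.toLp r I01 𝕜 g)] with t ht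
      rw [ht]
      congr 1
      exact integral_congr_ae (ae_restrict_of_ae (BoundedContinuousFunction.coeFn_toLp r I01 𝕜 g))
    refine tendsto_Lp_dom hr (h := fun _ => ‖g‖) (memLp_const _) (fun N => ?_) ?_
    · filter_upwards [h1 N, I01_ae_mem] with t ht ht1
      have hNp : 0 < N + 1 := Nat.succ_pos N
      have hN' : (0 : ℝ) < ((N + 1 : ℕ) : ℝ) := by exact_mod_cast hNp
      rw [ht, norm_smul, Real.norm_of_nonneg hN'.le]
      have h5 := norm_setIntegral_le_of_norm_le_const (μ := I01)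
        (measure_lt_top _ (cell (N + 1) ⌊((N + 1 : ℕ) : ℝ) * t⌋₊)) (f := g) (C := ‖g‖)
        (fun s _ => g.norm_coe_le_norm s)
      rw [Measure.real, I01_cell (floor_lt hNp ht1), ENNReal.toReal_inv,
        ENNReal.toReal_natCast] at h5
      calc ((N + 1 : ℕ) : ℝ) * _ ≤ ((N + 1 : ℕ) : ℝ) * (‖g‖ * (((N + 1 : ℕ) : ℝ))⁻¹) := by gcongr
        _ = ‖g‖ := by field_simp
    · filter_upwards [ae_all_iff.2 h1, I01_ae_mem,
        BoundedContinuousFunction.coeFn_toLp r I01 𝕜 g] with t h2 h3 h4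
      rw [h4]
      simp only [h2]
      exact (tendsto_add_atTop_iff_nat 1).2 (avg_cont g t h3)
  rw [Metric.tendsto_atTop]
  intro ε hε
  have hd := BoundedContinuousFunction.toLp_denseRange 𝕜 I01 𝕜 hr (p := r) (α := ℝ)
  obtain ⟨g, hg1⟩ := hd.exists_dist_lt f (ε := ε / 3) (by positivity)
  obtain ⟨N0, hN0⟩ := (Metric.tendsto_atTop.1 (hg g)) (ε / 3) (by positivity)
  refine ⟨N0, fun N hN => ?_⟩
  have h2 := hN0 N hN
  set G := BoundedContinuousFunction.toLp r I01 𝕜 g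
  have h3 : dist (beta 𝕜 r hr N (alpha 𝕜 r hr N f)) (beta 𝕜 r hr N (alpha 𝕜 r hr N G)) ≤
      dist f G := by
    rw [dist_eq_norm, ← map_sub, ← map_sub, dist_eq_norm]
    exact hE N _
  calc dist (beta 𝕜 r hr N (alpha 𝕜 r hr N f)) f
      ≤ dist (beta 𝕜 r hr N (alpha 𝕜 r hr N f)) (beta 𝕜 r hr N (alpha 𝕜 r hr N G)) +
        dist (beta 𝕜 r hr N (alpha 𝕜 r hr N G)) G + dist G f := dist_triangle4 _ _ _ _
    _ < ε := by
      rw [dist_comm G f]
      linarith

end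

end Pool.Agent.X304.Cd
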