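import Pool.Agent.Helper234.LInfS.Suff

/-!
# Averages over equal intervals in `L_r`
-/

set_option autoImplicit false

open MeasureTheory Filter Topology Set
open scoped ENNReal NNReal

namespace Pool.Agent.X304.Cd

open Pool.Agent.Helper234.LInf Pool.Agent.Helper234.LInfS

/-- The interval `[j/N, (j+1)/N)`. -/
def cell (N j : ℕ) : Set ℝ := Ico ((j : ℝ) / N) (((j : ℝ) + 1) / N)

lemma measurableSet_cell (N j : ℕ) : MeasurableSet (cell N j) := measurableSet_Ico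

lemma mem_cell_iff {N j : ℕ} (hN : 0 < N) {t : ℝ} (ht : 0 ≤ t) :
    t ∈ cell N j ↔ ⌊(N : ℝ) * t⌋₊ = j := by
  have h2 : (0 : ℝ) < N := by exact_mod_cast hN
  rw [Nat.floor_eq_iff (by positivity)]
  simp only [cell, Set.mem_Ico]
  rw [div_le_iff₀ h2, lt_div_iff₀ h2, mul_comm t]

lemma cell_nonneg {N j : ℕ} {t : ℝ} (h : t ∈ cell N j) : 0 ≤ t :=
  le_trans (by positivity) h.1

lemma floor_of_mem {N j : ℕ} (hN : 0 < N) {t : ℝ} (h : t ∈ cell N j) : ⌊(N : ℝ) * t⌋₊ = j :=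
  (mem_cell_iff hN (cell_nonneg h)).1 h

lemma cell_disj {N : ℕ} (hN : 0 < N) : Pairwise (Function.onFun Disjoint fun j : Fin N => cell N j) := by
  intro i j hij
  rw [Function.onFun, Set.disjoint_left]
  intro t h1 h2
  apply hij
  apply Fin.ext
  rw [← floor_of_mem hN h1, ← floor_of_mem hN h2]

lemma floor_lt {N : ℕ} (hN : 0 < N) {t : ℝ} (ht : t ∈ Ico (0 : ℝ) 1) : ⌊(N : ℝ) * t⌋₊ < N := by
  have h2 : (0 : ℝ) < N := by exact_mod_cast hN
  have h0 := ht.1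
  have h1 := ht.2
  rw [Nat.floor_lt (by positivity)]
  nlinarith

lemma cell_sub {N j : ℕ} (hj : j < N) : cell N j ⊆ Icc 0 1 := by
  have hN : (0 : ℝ) < N := by exact_mod_cast (Nat.zero_le j).trans_lt hj
  intro t ht
  refine ⟨cell_nonneg ht, ht.2.le.trans ?_⟩
  rw [div_le_one hN]
  exact_mod_cast hj

lemma I01_cell {N j : ℕ} (hj : j < N) : I01 (cell N j) = (N : ℝ≥0∞)⁻¹ := by
  have hN : (0 : ℝ) < N := by exact_mod_cast (Nat.zero_le j).trans_lt hj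
  rw [I01, Measure.restrict_apply (measurableSet_cell N j), inter_eq_left.2 (cell_sub hj), cell,
    Real.volume_Ico, ← sub_div, add_sub_cancel_left, one_div, ENNReal.ofReal_inv_of_pos hN,
    ENNReal.ofReal_natCast]

lemma lintegral_cells {N : ℕ} (hN : 0 < N) (g : ℝ → ℝ≥0∞) :
    ∑ j : Fin N, ∫⁻ t in cell N j, g t ∂I01 = ∫⁻ t, g t ∂I01 := by
  rw [← tsum_fintype (L := SummationFilter.unconditional _), ← lintegral_iUnion (fun j => measurableSet_cell N _) (cell_disj hN)]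
  have h1 : ∀ᵐ t ∂I01, t ∈ ⋃ j : Fin N, cell N j := by
    filter_upwards [I01_ae_mem] with t ht
    rw [mem_iUnion]
    exact ⟨⟨_, floor_lt hN ht⟩, (mem_cell_iff hN ht.1).2 rfl⟩
  rw [Measure.restrict_eq_self_of_ae_mem h1]

section

variable (𝕜 : Type) [RCLike 𝕜] (r : ℝ≥0∞) [hr1 : Fact (1 ≤ r)]

variable {r} in
lemma toReal_pos' (hr : r ≠ ∞) : 0 < r.toReal :=
  ENNReal.toReal_pos (zero_lt_one.trans_le hr1.out).ne' hr

variable {r} in
lemma one_le_toReal (hr : r ≠ ∞) : 1 ≤ r.toReal := by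
  have := ENNReal.toReal_mono hr hr1.out
  simpa using this

/-- The `L_r` norm of a function as a sum over the cells. -/
lemma cells_rpow (hr : r ≠ ∞) {N : ℕ} (hN : 0 < N) (f : ℝ → 𝕜) :
    ∑ j : Fin N, (eLpNorm f r (I01.restrict (cell N j))) ^ r.toReal = (eLpNorm f r I01) ^ r.toReal := by
  have h0 := toReal_pos' hr
  have hr0 : r ≠ 0 := (zero_lt_one.trans_le hr1.out).ne'
  have h1 : ∀ μ : Measure ℝ, (eLpNorm f r μ) ^ r.toReal = ∫⁻ t, ‖f t‖ₑ ^ r.toReal ∂μ := by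
    intro μ
    rw [eLpNorm_eq_lintegral_rpow_enorm_toReal hr0 hr, ← ENNReal.rpow_mul, one_div,
      inv_mul_cancel₀ h0.ne', ENNReal.rpow_one]
  simp only [h1]
  exact lintegral_cells hN _

variable {𝕜 r}

lemma integrable (f : Lp 𝕜 r I01) : Integrable f I01 := (Lp.memLp f).integrable hr1.out

/-- The bound for the integral over a cell. -/
lemma cell_bound {N j : ℕ} (hj : j < N) (f : Lp 𝕜 r I01) :
    ‖∫ t in cell N j, f t ∂I01‖ₑ ≤
      eLpNorm f r (I01.restrict (cell N j)) * ((N : ℝ≥0∞)⁻¹) ^ (1 - 1 / r.toReal) := by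
  refine (enorm_integral_le_lintegral_enorm _).trans ?_
  rw [← eLpNorm_one_eq_lintegral_enorm]
  have := eLpNorm_le_eLpNorm_mul_rpow_measure_univ (μ := I01.restrict (cell N j)) hr1.out
    (f := (f : ℝ → 𝕜)) (Lp.aestronglyMeasurable f).restrict
  rwa [Measure.restrict_apply_univ, I01_cell hj, ENNReal.toReal_one, div_one] at this

variable (𝕜 r)

/-- Integral over a measurable set, as an operator. -/
noncomputable def J (s : Set ℝ) : Lp 𝕜 r I01 →L[𝕜] 𝕜 :=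
  LinearMap.mkContinuous
    { toFun := fun f => ∫ t in s, f t ∂I01
      map_add' := fun f g => by
        rw [← integral_add (integrable f).integrableOn (integrable g).integrableOn]
        exact integral_congr_ae (ae_restrict_of_ae (Lp.coeFn_add f g))
      map_smul' := fun c f => by
        rw [RingHom.id_apply, ← integral_smul]
        exact integral_congr_ae (ae_restrict_of_ae (Lp.coeFn_smul c f)) } 1 (fun f => by
      rw [one_mul]
      have h1 : ‖∫ t in s, f t ∂I01‖ₑ ≤ eLpNorm f r I01 := by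
        calc ‖∫ t in s, f t ∂I01‖ₑ ≤ ∫⁻ t in s, ‖f t‖ₑ ∂I01 := enorm_integral_le_lintegral_enorm _
          _ ≤ ∫⁻ t, ‖f t‖ₑ ∂I01 := setLIntegral_le_lintegral _ _
          _ = eLpNorm f 1 I01 := eLpNorm_one_eq_lintegral_enorm.symm
          _ ≤ eLpNorm f r I01 := eLpNorm_le_eLpNorm_of_exponent_le hr1.out
              (Lp.aestronglyMeasurable f)
      have h2 := ENNReal.toReal_mono (Lp.eLpNorm_ne_top f) h1
      rwa [toReal_enorm, ← Lp.norm_def] at h2)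

variable {𝕜 r} in
lemma J_apply (s : Set ℝ) (f : Lp 𝕜 r I01) : J 𝕜 r s f = ∫ t in s, f t ∂I01 := rfl

variable {𝕜 r} in
lemma norm_J_le (s : Set ℝ) (f : Lp 𝕜 r I01) : ‖J 𝕜 r s f‖ ≤ ‖f‖ := by
  have := (J 𝕜 r s).le_of_opNorm_le (LinearMap.mkContinuous_norm_le _ zero_le_one _) f
  rwa [one_mul] at this

/-- The coefficients of the averages. -/
noncomputable def alphaLin (N : ℕ) : Lp 𝕜 r I01 →ₗ[𝕜] PiLp r (fun _ : Fin N => 𝕜) where
  toFun f := WithLp.toLp r fun j : Fin N =>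
    ((((N : ℝ) ^ (1 - 1 / r.toReal) : ℝ)) : 𝕜) * J 𝕜 r (cell N j) f
  map_add' f g := by
    ext j
    simp [mul_add]
  map_smul' c f := by
    ext j
    simp [mul_left_comm]

lemma alphaLin_apply (N : ℕ) (f : Lp 𝕜 r I01) (j : Fin N) : alphaLin 𝕜 r N f j =
    ((((N : ℝ) ^ (1 - 1 / r.toReal) : ℝ)) : 𝕜) * J 𝕜 r (cell N j) f := rfl

lemma norm_alpha_coord (hr : r ≠ ∞) {N : ℕ} (f : Lp 𝕜 r I01) (j : Fin N) :
    ‖alphaLin 𝕜 r N f j‖ ≤ (eLpNorm f r (I01.restrict (cell N j))).toReal := by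
  have hN : 0 < N := j.pos
  have hN' : (0 : ℝ) < N := by exact_mod_cast hN
  have h1 := cell_bound j.2 f
  have h2 : eLpNorm f r (I01.restrict (cell N j)) ≠ ∞ :=
    ((eLpNorm_mono_measure _ Measure.restrict_le_self).trans_lt (Lp.eLpNorm_lt_top f)).ne
  have hρ := one_le_toReal hr
  have h3 : 0 ≤ 1 - 1 / r.toReal := by
    rw [sub_nonneg, div_le_one (by linarith)]
    exact hρ
  have h4 : ((N : ℝ≥0∞)⁻¹) ^ (1 - 1 / r.toReal) ≠ ∞ := by
    apply ENNReal.rpow_ne_top_of_nonneg h3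
    simpa using hN.ne'
  have h5 := ENNReal.toReal_mono (ENNReal.mul_ne_top h2 h4) h1
  rw [toReal_enorm, ENNReal.toReal_mul, ← ENNReal.toReal_rpow, ENNReal.toReal_inv,
    ENNReal.toReal_natCast, Real.inv_rpow hN'.le] at h5
  rw [alphaLin_apply, norm_mul, RCLike.norm_ofReal, abs_of_nonneg (by positivity), J_apply]
  have h6 : 0 < (N : ℝ) ^ (1 - 1 / r.toReal) := by positivity
  calc (N : ℝ) ^ (1 - 1 / r.toReal) * ‖∫ t in cell N j, f t ∂I01‖
      ≤ (N : ℝ) ^ (1 - 1 / r.toReal) * ((eLpNorm f r (I01.restrict (cell N j))).toReal *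
        ((N : ℝ) ^ (1 - 1 / r.toReal))⁻¹) := by gcongr
    _ = _ := by field_simp

lemma norm_alpha_le (hr : r ≠ ∞) (N : ℕ) (f : Lp 𝕜 r I01) : ‖alphaLin 𝕜 r N f‖ ≤ ‖f‖ := by
  have h0 := toReal_pos' hr
  rcases Nat.eq_zero_or_pos N with rfl | hN
  · have : alphaLin 𝕜 r 0 f = 0 := by
      ext j
      exact j.elim0
    rw [this, norm_zero]
    exact norm_nonneg _
  rw [PiLp.norm_eq_sum h0, one_div, Real.rpow_inv_le_iff_of_pos
    (Finset.sum_nonneg fun _ _ => by positivity) (norm_nonneg _) h0]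
  have h2 : ∀ j : Fin N, eLpNorm f r (I01.restrict (cell N j)) ≠ ∞ := fun j =>
    ((eLpNorm_mono_measure _ Measure.restrict_le_self).trans_lt (Lp.eLpNorm_lt_top f)).ne
  have h3 := congrArg ENNReal.toReal (cells_rpow 𝕜 r hr hN (f : ℝ → 𝕜))
  rw [ENNReal.toReal_sum (fun j _ => ENNReal.rpow_ne_top_of_nonneg h0.le (h2 j))] at h3
  simp only [← ENNReal.toReal_rpow] at h3
  rw [← Lp.norm_def] at h3
  rw [← h3]
  exact Finset.sum_le_sum fun j _ =>
    Real.rpow_le_rpow (norm_nonneg _) (norm_alpha_coord 𝕜 r hr f j) h0.le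

/-- The coefficients of the averages, as an operator. -/
noncomputable def alpha (hr : r ≠ ∞) (N : ℕ) : Lp 𝕜 r I01 →L[𝕜] PiLp r (fun _ : Fin N => 𝕜) :=
  LinearMap.mkContinuous (alphaLin 𝕜 r N) 1 fun f => by
    rw [one_mul]; exact norm_alpha_le 𝕜 r hr N f

lemma alpha_apply (hr : r ≠ ∞) (N : ℕ) (f : Lp 𝕜 r I01) (j : Fin N) : alpha 𝕜 r hr N f j =
    ((((N : ℝ) ^ (1 - 1 / r.toReal) : ℝ)) : 𝕜) * J 𝕜 r (cell N j) f := rfl

lemma alpha_norm_le (hr : r ≠ ∞) (N : ℕ) (f : Lp 𝕜 r I01) : ‖alpha 𝕜 r hr N f‖ ≤ ‖f‖ :=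
  norm_alpha_le 𝕜 r hr N f

/-- The step function with the given coefficients. -/
noncomputable def stepf (N : ℕ) (a : PiLp r (fun _ : Fin N => 𝕜)) (t : ℝ) : 𝕜 :=
  if h : ⌊(N : ℝ) * t⌋₊ < N then ((((N : ℝ) ^ (1 / r.toReal) : ℝ)) : 𝕜) * a ⟨_, h⟩ else 0

variable {𝕜 r} in
lemma stepf_of_mem {N : ℕ} (a : PiLp r (fun _ : Fin N => 𝕜)) (j : Fin N) {t : ℝ}
    (ht : t ∈ cell N j) : stepf 𝕜 r N a t = ((((N : ℝ) ^ (1 / r.toReal) : ℝ)) : 𝕜) * a j := by
  have h1 := floor_of_mem j.pos ht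
  have h2 : ⌊(N : ℝ) * t⌋₊ < N := by rw [h1]; exact j.2
  have h3 : (⟨_, h2⟩ : Fin N) = j := Fin.ext h1
  rw [stepf, dif_pos h2, h3]

omit hr1 in
lemma stepf_meas (N : ℕ) (a : PiLp r (fun _ : Fin N => 𝕜)) : StronglyMeasurable (stepf 𝕜 r N a) := by
  have h2 : StronglyMeasurable (fun k : ℕ => if h : k < N then
      ((((N : ℝ) ^ (1 / r.toReal) : ℝ)) : 𝕜) * a ⟨k, h⟩ else 0) := StronglyMeasurable.of_discrete
  exact h2.comp_measurable (g := fun t : ℝ => ⌊(N : ℝ) * t⌋₊)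
      (Nat.measurable_floor.comp (measurable_const.mul measurable_id))

lemma stepf_eLpNorm (hr : r ≠ ∞) (N : ℕ) (hN : 0 < N) (a : PiLp r (fun _ : Fin N => 𝕜)) :
    (eLpNorm (stepf 𝕜 r N a) r I01) ^ r.toReal = ∑ j, ‖a j‖ₑ ^ r.toReal := by
  have h0 := toReal_pos' hr
  have hr0 : r ≠ 0 := (zero_lt_one.trans_le hr1.out).ne'
  have hN' : (0 : ℝ) < N := by exact_mod_cast hN
  rw [← cells_rpow 𝕜 r hr hN]
  refine Finset.sum_congr rfl fun j _ => ?_
  have h1 : stepf 𝕜 r N a =ᵐ[I01.restrict (cell N j)]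
      fun _ => ((((N : ℝ) ^ (1 / r.toReal) : ℝ)) : 𝕜) * a j := by
    filter_upwards [ae_restrict_mem (measurableSet_cell N j)] with t ht
    exact stepf_of_mem a j ht
  rw [eLpNorm_congr_ae h1, eLpNorm_const' _ hr0 hr, Measure.restrict_apply_univ, I01_cell j.2,
    ENNReal.mul_rpow_of_nonneg _ _ h0.le, ← ENNReal.rpow_mul, one_div, inv_mul_cancel₀ h0.ne',
    ENNReal.rpow_one, enorm_mul, ENNReal.mul_rpow_of_nonneg _ _ h0.le]
  have h2 : ‖((((N : ℝ) ^ (r.toReal)⁻¹ : ℝ)) : 𝕜)‖ₑ ^ r.toReal = (N : ℝ≥0∞) := by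
    rw [← ofReal_norm, RCLike.norm_ofReal, abs_of_nonneg (by positivity),
      ENNReal.ofReal_rpow_of_nonneg (by positivity) h0.le, ← Real.rpow_mul hN'.le,
      inv_mul_cancel₀ h0.ne', Real.rpow_one, ENNReal.ofReal_natCast]
  rw [h2, mul_right_comm, ENNReal.mul_inv_cancel (by simpa using hN.ne') (by simp), one_mul]

lemma stepf_memLp (hr : r ≠ ∞) (N : ℕ) (a : PiLp r (fun _ : Fin N => 𝕜)) :
    MemLp (stepf 𝕜 r N a) r I01 := by
  refine ⟨(stepf_meas 𝕜 r N a).aestronglyMeasurable, ?_⟩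
  have h0 := toReal_pos' hr
  rcases Nat.eq_zero_or_pos N with rfl | hN
  · have : stepf 𝕜 r 0 a = 0 := by
      ext t
      simp [stepf]
    rw [this]
    simp
  have h1 : (eLpNorm (stepf 𝕜 r N a) r I01) ^ r.toReal < ∞ := by
    rw [stepf_eLpNorm 𝕜 r hr N hN]
    exact ENNReal.sum_lt_top.2 fun j _ => ENNReal.rpow_lt_top_of_nonneg h0.le enorm_ne_top
  exact (ENNReal.rpow_lt_top_iff_of_pos h0).1 h1

/-- The step function with the given coefficients, as an element of `L_r`. -/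
noncomputable def betaLin (hr : r ≠ ∞) (N : ℕ) : PiLp r (fun _ : Fin N => 𝕜) →ₗ[𝕜] Lp 𝕜 r I01 where
  toFun a := (stepf_memLp 𝕜 r hr N a).toLp _
  map_add' a b := by
    rw [← MemLp.toLp_add]
    apply MemLp.toLp_congr
    refine Eventually.of_forall fun t => ?_
    change stepf 𝕜 r N (a + b) t = stepf 𝕜 r N a t + stepf 𝕜 r N b t
    unfold stepf
    split_ifs
    · simp [mul_add]
    · simp
  map_smul' c a := by
    rw [RingHom.id_apply, ← MemLp.toLp_const_smul]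
    apply MemLp.toLp_congr
    refine Eventually.of_forall fun t => ?_
    change stepf 𝕜 r N (c • a) t = c • stepf 𝕜 r N a t
    unfold stepf
    split_ifs
    · simp [mul_left_comm]
    · simp

lemma norm_beta_le (hr : r ≠ ∞) (N : ℕ) (a : PiLp r (fun _ : Fin N => 𝕜)) :
    ‖betaLin 𝕜 r hr N a‖ ≤ ‖a‖ := by
  have h0 := toReal_pos' hr
  rcases Nat.eq_zero_or_pos N with rfl | hN
  · have : a = 0 := by
      ext j
      exact j.elim0
    rw [this, map_zero, norm_zero, norm_zero]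
  have h1 := congrArg ENNReal.toReal (stepf_eLpNorm 𝕜 r hr N hN a)
  rw [← ENNReal.toReal_rpow, ENNReal.toReal_sum
    (fun j _ => ENNReal.rpow_ne_top_of_nonneg h0.le enorm_ne_top)] at h1
  simp only [← ENNReal.toReal_rpow, toReal_enorm] at h1
  change ‖(stepf_memLp 𝕜 r hr N a).toLp _‖ ≤ _
  rw [Lp.norm_toLp, PiLp.norm_eq_sum h0, ← h1, ← Real.rpow_mul ENNReal.toReal_nonneg,
    mul_one_div, div_self h0.ne', Real.rpow_one]

/-- The step function with the given coefficients, as an operator. -/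
noncomputable def beta (hr : r ≠ ∞) (N : ℕ) : PiLp r (fun _ : Fin N => 𝕜) →L[𝕜] Lp 𝕜 r I01 :=
  LinearMap.mkContinuous (betaLin 𝕜 r hr N) 1 fun f => by
    rw [one_mul]; exact norm_beta_le 𝕜 r hr N f

lemma beta_norm_le (hr : r ≠ ∞) (N : ℕ) (a : PiLp r (fun _ : Fin N => 𝕜)) :
    ‖beta 𝕜 r hr N a‖ ≤ ‖a‖ := norm_beta_le 𝕜 r hr N a

lemma beta_coe (hr : r ≠ ∞) (N : ℕ) (a : PiLp r (fun _ : Fin N => 𝕜)) :
    (beta 𝕜 r hr N a : ℝ → 𝕜) =ᵐ[I01] stepf 𝕜 r N a := (stepf_memLp 𝕜 r hr N a).coeFn_toLp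

lemma alpha_beta (hr : r ≠ ∞) (N : ℕ) (a : PiLp r (fun _ : Fin N => 𝕜)) :
    alpha 𝕜 r hr N (beta 𝕜 r hr N a) = a := by
  ext j
  have hN : 0 < N := j.pos
  have hN' : (0 : ℝ) < N := by exact_mod_cast hN
  have h0 := toReal_pos' hr
  rw [alpha_apply, J_apply]
  have h1 : ∫ t in cell N j, (beta 𝕜 r hr N a : ℝ → 𝕜) t ∂I01 =
      ∫ _t in cell N j, ((((N : ℝ) ^ (1 / r.toReal) : ℝ)) : 𝕜) * a j ∂I01 := by
    apply integral_congr_ae
    filter_upwards [ae_restrict_of_ae (beta_coe 𝕜 r hr N a),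
      ae_restrict_mem (measurableSet_cell N j)] with t h1 h2
    rw [h1, stepf_of_mem a j h2]
  rw [h1, setIntegral_const, Measure.real, I01_cell j.2, ENNReal.toReal_inv,
    ENNReal.toReal_natCast, RCLike.real_smul_eq_coe_mul, ← mul_assoc, ← mul_assoc]
  rw [← RCLike.ofReal_mul, ← RCLike.ofReal_mul]
  have h2 : (N : ℝ) ^ (1 - 1 / r.toReal) * (N : ℝ)⁻¹ * (N : ℝ) ^ (1 / r.toReal) = 1 := by
    rw [mul_right_comm, ← Real.rpow_add hN', sub_add_cancel, Real.rpow_one,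
      mul_inv_cancel₀ hN'.ne']
  rw [h2, RCLike.ofReal_one, one_mul]

/-- Averaging over the cells. -/
lemma beta_alpha (hr : r ≠ ∞) (N : ℕ) (hN : 0 < N) (f : Lp 𝕜 r I01) :
    ∀ᵐ t ∂I01, (beta 𝕜 r hr N (alpha 𝕜 r hr N f) : ℝ → 𝕜) t =
      (N : ℝ) • ∫ s in cell N ⌊(N : ℝ) * t⌋₊, f s ∂I01 := by
  have hN' : (0 : ℝ) < N := by exact_mod_cast hN
  filter_upwards [beta_coe 𝕜 r hr N (alpha 𝕜 r hr N f), I01_ae_mem] with t h1 h2
  have h3 : t ∈ cell N (⟨_, floor_lt hN h2⟩ : Fin N) := (mem_cell_iff hN h2.1).2 rfl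
  rw [h1, stepf_of_mem _ _ h3, alpha_apply, J_apply, ← mul_assoc, ← RCLike.ofReal_mul,
    ← Real.rpow_add hN', add_sub_cancel, Real.rpow_one, RCLike.real_smul_eq_coe_mul]

end

end Pool.Agent.X304.Cd
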