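import Pool.Agent.X304.Cd.Avg

/-!
# The limit operator on `L_r`
-/

set_option autoImplicit false

open MeasureTheory Filter Topology Set
open scoped ENNReal NNReal

namespace Pool.Agent.X304.Cd

open Pool.Agent.Helper234.LInf Pool.Agent.Helper234.LInfS

/-- limits of bounded scalar sequences along a fixed free ultrafilter -/
noncomputable def ulim (𝕜 : Type) [RCLike 𝕜] (z : ℕ → 𝕜) : 𝕜 :=
  limUnder (hyperfilter ℕ : Filter ℕ) z

theorem ulim_spec (𝕜 : Type) [RCLike 𝕜] (z : ℕ → 𝕜) (C : ℝ) (hz : ∀ n, ‖z n‖ ≤ C) :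
    Tendsto z (hyperfilter ℕ) (𝓝 (ulim 𝕜 z)) := by
  have hc : IsCompact (Metric.closedBall (0 : 𝕜) C) := isCompact_closedBall 0 C
  have h1 : ∀ᶠ n in (hyperfilter ℕ : Filter ℕ), z n ∈ Metric.closedBall (0 : 𝕜) C :=
    Eventually.of_forall fun n => by simpa using hz n
  obtain ⟨l, _, hl⟩ := hc.ultrafilter_le_nhds ((hyperfilter ℕ).map z)
    (by rw [le_principal_iff]; exact h1)
  exact tendsto_nhds_limUnder ⟨l, hl⟩

section

variable {𝕜 : Type} [RCLike 𝕜] {r : ℝ≥0∞} [hr1 : Fact (1 ≤ r)]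

lemma J_diff {a b : ℝ} (hab : a ≤ b) (f : Lp 𝕜 r I01) :
    J 𝕜 r (Iio b) f - J 𝕜 r (Iio a) f = ∫ t in Ico a b, f t ∂I01 := by
  rw [J_apply, J_apply, ← Iio_union_Ico_eq_Iio hab, setIntegral_union _ measurableSet_Ico
    (integrable f).integrableOn (integrable f).integrableOn, add_sub_cancel_left]
  rw [Set.disjoint_left]
  intro t h1 h2
  exact absurd h1 (not_lt.2 h2.1)

lemma J_cell (N j : ℕ) (f : Lp 𝕜 r I01) :
    J 𝕜 r (cell N j) f = J 𝕜 r (Iio (((j : ℝ) + 1) / N)) f - J 𝕜 r (Iio ((j : ℝ) / N)) f := by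
  rw [J_diff (by gcongr; linarith)]
  rfl

/-- The variation of the indefinite integral. -/
lemma var_le (f : Lp 𝕜 r I01) (u : ℕ → ℝ) (hu : Monotone u) (n : ℕ) :
    ∑ i ∈ Finset.range n, ‖J 𝕜 r (Iio (u (i + 1))) f - J 𝕜 r (Iio (u i)) f‖ₑ ≤
      ENNReal.ofReal ‖f‖ := by
  calc ∑ i ∈ Finset.range n, ‖J 𝕜 r (Iio (u (i + 1))) f - J 𝕜 r (Iio (u i)) f‖ₑ
      ≤ ∑ i ∈ Finset.range n, ∫⁻ t in Ico (u i) (u (i + 1)), ‖f t‖ₑ ∂I01 := by
        refine Finset.sum_le_sum fun i _ => ?_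
        rw [J_diff (hu (Nat.le_succ i))]
        exact enorm_integral_le_lintegral_enorm _
    _ = ∫⁻ t in ⋃ i ∈ Finset.range n, Ico (u i) (u (i + 1)), ‖f t‖ₑ ∂I01 := by
        rw [lintegral_biUnion_finset]
        · intro i _ j _ hij
          exact hu.pairwise_disjoint_on_Ico_succ hij
        · exact fun i _ => measurableSet_Ico
    _ ≤ ∫⁻ t, ‖f t‖ₑ ∂I01 := setLIntegral_le_lintegral _ _
    _ = eLpNorm f 1 I01 := eLpNorm_one_eq_lintegral_enorm.symm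
    _ ≤ eLpNorm f r I01 := eLpNorm_le_eLpNorm_of_exponent_le hr1.out
        (Lp.aestronglyMeasurable f)
    _ = ENNReal.ofReal ‖f‖ := by rw [Lp.norm_def, ENNReal.ofReal_toReal (Lp.eLpNorm_ne_top f)]

/-- The limit of the indefinite integrals. -/
noncomputable def F (x : lp (fun _ : ℕ => Lp 𝕜 r I01) ⊤) (t : ℝ) : 𝕜 :=
  ulim 𝕜 fun n => J 𝕜 r (Iio t) (x n)

lemma F_spec (x : lp (fun _ : ℕ => Lp 𝕜 r I01) ⊤) (t : ℝ) :
    Tendsto (fun n => J 𝕜 r (Iio t) (x n)) (hyperfilter ℕ) (𝓝 (F x t)) :=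
  ulim_spec 𝕜 _ ‖x‖ fun n => (norm_J_le _ _).trans (norm_coord_le x n)

lemma F_add (x y : lp (fun _ : ℕ => Lp 𝕜 r I01) ⊤) (t : ℝ) : F (x + y) t = F x t + F y t := by
  refine tendsto_nhds_unique (F_spec (x + y) t) (((F_spec x t).add (F_spec y t)).congr fun n => ?_)
  rw [← map_add]
  rfl

lemma F_smul (c : 𝕜) (x : lp (fun _ : ℕ => Lp 𝕜 r I01) ⊤) (t : ℝ) : F (c • x) t = c * F x t := by
  refine tendsto_nhds_unique (F_spec (c • x) t) (((F_spec x t).const_mul c).congr fun n => ?_)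
  rw [← smul_eq_mul, ← map_smul]
  rfl

lemma F_var (x : lp (fun _ : ℕ => Lp 𝕜 r I01) ⊤) : eVariationOn (F x) univ ≤ ENNReal.ofReal ‖x‖ := by
  refine iSup_le ?_
  rintro ⟨n, u, hu, -⟩
  have h1 : Tendsto (fun m => ∑ i ∈ Finset.range n,
      ‖J 𝕜 r (Iio (u (i + 1))) (x m) - J 𝕜 r (Iio (u i)) (x m)‖ₑ) (hyperfilter ℕ)
      (𝓝 (∑ i ∈ Finset.range n, ‖F x (u (i + 1)) - F x (u i)‖ₑ)) :=
    tendsto_finsetSum _ fun i _ => ((F_spec x _).sub (F_spec x _)).enorm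
  have h2 := le_of_tendsto h1 (Eventually.of_forall fun m =>
    (var_le (x m) u hu n).trans (ENNReal.ofReal_le_ofReal (norm_coord_le x m)))
  simpa only [edist_eq_enorm_sub] using h2

lemma F_diff (x : lp (fun _ : ℕ => Lp 𝕜 r I01) ⊤) : ∀ᵐ t, DifferentiableAt ℝ (F x) t := by
  have h1 : BoundedVariationOn (F x) univ := ((F_var x).trans_lt ENNReal.ofReal_lt_top).ne
  exact h1.locallyBoundedVariationOn.ae_differentiableAt

variable (𝕜 r) in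
/-- The limit of the coefficients of the averages. -/
noncomputable def w (N : ℕ) (x : lp (fun _ : ℕ => Lp 𝕜 r I01) ⊤) : PiLp r (fun _ : Fin N => 𝕜) :=
  WithLp.toLp r fun j : Fin N => ((((N : ℝ) ^ (1 - 1 / r.toReal) : ℝ)) : 𝕜) *
    (F x (((j : ℕ) + 1 : ℝ) / N) - F x ((j : ℕ) / N : ℝ))

lemma w_spec (hr : r ≠ ∞) (N : ℕ) (x : lp (fun _ : ℕ => Lp 𝕜 r I01) ⊤) :
    Tendsto (fun n => alpha 𝕜 r hr N (x n)) (hyperfilter ℕ) (𝓝 (w 𝕜 r N x)) := by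
  have h1 : Tendsto (fun n => fun j : Fin N => ((((N : ℝ) ^ (1 - 1 / r.toReal) : ℝ)) : 𝕜) *
      (J 𝕜 r (Iio (((j : ℕ) + 1 : ℝ) / N)) (x n) - J 𝕜 r (Iio ((j : ℕ) / N : ℝ)) (x n)))
      (hyperfilter ℕ) (𝓝 fun j : Fin N => ((((N : ℝ) ^ (1 - 1 / r.toReal) : ℝ)) : 𝕜) *
    (F x (((j : ℕ) + 1 : ℝ) / N) - F x ((j : ℕ) / N : ℝ))) := by
    rw [tendsto_pi_nhds]
    intro j
    exact ((F_spec x _).sub (F_spec x _)).const_mul _
  have h2 := ((PiLp.continuous_toLp r (fun _ : Fin N => 𝕜)).tendsto _).comp h1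
  refine h2.congr fun n => ?_
  ext j
  rw [alpha_apply, J_cell]
  rfl

lemma w_norm (hr : r ≠ ∞) (N : ℕ) (x : lp (fun _ : ℕ => Lp 𝕜 r I01) ⊤) : ‖w 𝕜 r N x‖ ≤ ‖x‖ :=
  le_of_tendsto (w_spec hr N x).norm (Eventually.of_forall fun n =>
    (alpha_norm_le 𝕜 r hr N _).trans (norm_coord_le x n))

lemma V_coe (hr : r ≠ ∞) {N : ℕ} (hN : 0 < N) (x : lp (fun _ : ℕ => Lp 𝕜 r I01) ⊤) :
    ∀ᵐ t ∂I01, (beta 𝕜 r hr N (w 𝕜 r N x) : ℝ → 𝕜) t =
      (N : ℝ) • (F x (((⌊(N : ℝ) * t⌋₊ : ℝ) + 1) / N) - F x ((⌊(N : ℝ) * t⌋₊ : ℝ) / N)) := by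
  have hN' : (0 : ℝ) < N := by exact_mod_cast hN
  filter_upwards [beta_coe 𝕜 r hr N (w 𝕜 r N x), I01_ae_mem] with t h1 h2
  have h3 : t ∈ cell N (⟨_, floor_lt hN h2⟩ : Fin N) := (mem_cell_iff hN h2.1).2 rfl
  rw [h1, stepf_of_mem _ _ h3]
  change _ * (_ * _) = _
  rw [← mul_assoc, ← RCLike.ofReal_mul, ← Real.rpow_add hN', add_sub_cancel, Real.rpow_one,
    RCLike.real_smul_eq_coe_mul]

/-- The dyadic step functions converge to the derivative. -/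
lemma V_lim (hr : r ≠ ∞) (x : lp (fun _ : ℕ => Lp 𝕜 r I01) ⊤) :
    ∀ᵐ t ∂I01, Tendsto (fun l : ℕ => (beta 𝕜 r hr (2 ^ l) (w 𝕜 r (2 ^ l) x) : ℝ → 𝕜) t) atTop
      (𝓝 (deriv (F x) t)) := by
  have h1 : ∀ᵐ t ∂I01, ∀ l : ℕ, (beta 𝕜 r hr (2 ^ l) (w 𝕜 r (2 ^ l) x) : ℝ → 𝕜) t = (2 ^ l : ℝ) •
      (F x (((⌊2 ^ l * t⌋₊ : ℝ) + 1) / 2 ^ l) - F x ((⌊2 ^ l * t⌋₊ : ℝ) / 2 ^ l)) := by
    rw [ae_all_iff]
    intro l
    have := V_coe hr (N := 2 ^ l) (by positivity) x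
    simpa only [Nat.cast_pow, Nat.cast_ofNat] using this
  filter_upwards [h1, I01_ae_mem, ae_restrict_of_ae (F_diff x)] with t h2 h3 h4
  simp only [h2]
  exact dyadic_quot (F x) t h3.1 _ (hasDerivAt_iff_tendsto_slope_zero.1 h4.hasDerivAt)

lemma D_meas (x : lp (fun _ : ℕ => Lp 𝕜 r I01) ⊤) : StronglyMeasurable (deriv (F x)) :=
  stronglyMeasurable_deriv _

lemma D_norm (hr : r ≠ ∞) (x : lp (fun _ : ℕ => Lp 𝕜 r I01) ⊤) :
    eLpNorm (deriv (F x)) r I01 ≤ ENNReal.ofReal ‖x‖ := by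
  refine (Lp.eLpNorm_lim_le_liminf_eLpNorm (fun l : ℕ => Lp.aestronglyMeasurable
    (beta 𝕜 r hr (2 ^ l) (w 𝕜 r (2 ^ l) x))) _ (V_lim hr x)).trans ?_
  have h1 : ∀ l : ℕ, eLpNorm (beta 𝕜 r hr (2 ^ l) (w 𝕜 r (2 ^ l) x)) r I01 ≤ ENNReal.ofReal ‖x‖ := by
    intro l
    rw [← ENNReal.ofReal_toReal (Lp.eLpNorm_ne_top _), ← Lp.norm_def]
    exact ENNReal.ofReal_le_ofReal ((beta_norm_le 𝕜 r hr _ _).trans (w_norm hr _ x))
  exact (liminf_le_liminf (Eventually.of_forall h1)).trans (liminf_const _).le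

lemma D_memLp (hr : r ≠ ∞) (x : lp (fun _ : ℕ => Lp 𝕜 r I01) ⊤) : MemLp (deriv (F x)) r I01 :=
  ⟨(D_meas x).aestronglyMeasurable, (D_norm hr x).trans_lt ENNReal.ofReal_lt_top⟩

variable (𝕜) in
/-- The limit operator. -/
noncomputable def Phi (hr : r ≠ ∞) : lp (fun _ : ℕ => Lp 𝕜 r I01) ⊤ →L[𝕜] Lp 𝕜 r I01 :=
  LinearMap.mkContinuous
    { toFun := fun x => (D_memLp hr x).toLp _
      map_add' := fun x y => by
        rw [← MemLp.toLp_add]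
        apply MemLp.toLp_congr
        filter_upwards [ae_restrict_of_ae (F_diff x), ae_restrict_of_ae (F_diff y)] with t h1 h2
        have h3 : F (x + y) = F x + F y := by
          ext t
          exact F_add x y t
        rw [h3, deriv_add h1 h2]
        rfl
      map_smul' := fun c x => by
        rw [RingHom.id_apply, ← MemLp.toLp_const_smul]
        apply MemLp.toLp_congr
        filter_upwards [ae_restrict_of_ae (F_diff x)] with t h1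
        have h3 : F (c • x) = fun t => c * F x t := by
          ext t
          exact F_smul c x t
        rw [h3, deriv_const_mul c h1]
        rfl } 1 (fun x => by
      rw [one_mul]
      change ‖(D_memLp hr x).toLp _‖ ≤ _
      rw [Lp.norm_toLp]
      have := ENNReal.toReal_mono ENNReal.ofReal_ne_top (D_norm hr x)
      rwa [ENNReal.toReal_ofReal (norm_nonneg _)] at this)

lemma Phi_coe (hr : r ≠ ∞) (x : lp (fun _ : ℕ => Lp 𝕜 r I01) ⊤) :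
    (Phi 𝕜 hr x : ℝ → 𝕜) =ᵐ[I01] deriv (F x) := (D_memLp hr x).coeFn_toLp

/-- The value of the limit operator as a limit of dyadic step functions. -/
lemma Phi_lim (hr : r ≠ ∞) (x : lp (fun _ : ℕ => Lp 𝕜 r I01) ⊤) :
    ∀ᵐ t ∂I01, Tendsto (fun l : ℕ => (beta 𝕜 r hr (2 ^ l) (w 𝕜 r (2 ^ l) x) : ℝ → 𝕜) t) atTop
      (𝓝 ((Phi 𝕜 hr x : ℝ → 𝕜) t)) := by
  filter_upwards [V_lim hr x, Phi_coe hr x] with t h1 h2
  rwa [h2]

/-- The operator extends the limit. -/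
theorem Phi_of_tendsto (hr : r ≠ ∞) (x : lp (fun _ : ℕ => Lp 𝕜 r I01) ⊤) (f : Lp 𝕜 r I01)
    (h : Tendsto (fun n => x n) atTop (𝓝 f)) : Phi 𝕜 hr x = f := by
  have hF : ∀ t, F x t = J 𝕜 r (Iio t) f := fun t =>
    tendsto_nhds_unique (F_spec x t)
      ((((J 𝕜 r (Iio t)).continuous.tendsto f).comp h).mono_left Nat.hyperfilter_le_atTop)
  apply Lp.ext
  have h1 : ∀ᵐ t ∂I01, ∀ l : ℕ, (beta 𝕜 r hr (2 ^ l) (w 𝕜 r (2 ^ l) x) : ℝ → 𝕜) t = (2 ^ l : ℝ) •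
      (F x (((⌊2 ^ l * t⌋₊ : ℝ) + 1) / 2 ^ l) - F x ((⌊2 ^ l * t⌋₊ : ℝ) / 2 ^ l)) := by
    rw [ae_all_iff]
    intro l
    have := V_coe hr (N := 2 ^ l) (by positivity) x
    simpa only [Nat.cast_pow, Nat.cast_ofNat] using this
  filter_upwards [h1, Phi_lim hr x, dyadic_ae (f : ℝ → 𝕜) (integrable f)] with t h2 h3 h4
  refine tendsto_nhds_unique h3 (h4.congr fun l => ?_)
  rw [h2, hF, hF, J_diff (by gcongr; linarith)]
  rfl

/-- The limit extends on `L_r`. -/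
theorem limitOperator (hr : r ≠ ∞) : LimitOperator 𝕜 (Lp 𝕜 r I01) :=
  ⟨Phi 𝕜 hr, fun x f h => Phi_of_tendsto hr x f h⟩

end

end Pool.Agent.X304.Cd
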