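import Pool.Agent.Helper234.LInfS.Suff

/-!
# The decomposition method for `ℓ_∞(X)`
-/

set_option autoImplicit false

open MeasureTheory Filter Topology Set
open scoped ENNReal NNReal

namespace Pool.Agent.X304.Cd

open Pool.Agent.Helper234.LInf Pool.Agent.Helper234.LInfS

section

variable {𝕜 : Type} [RCLike 𝕜] {X : Type*} [NormedAddCommGroup X] [NormedSpace 𝕜 X]
  {G H : Type*} [NormedAddCommGroup G] [NormedSpace 𝕜 G] [NormedAddCommGroup H] [NormedSpace 𝕜 H]

/-- The operator on bounded sequences given by an operator. -/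
noncomputable def mapL (T : G →L[𝕜] H) : lp (fun _ : ℕ => G) ⊤ →L[𝕜] lp (fun _ : ℕ => H) ⊤ :=
  toLinf (fun n => T.comp (evalL 𝕜 G n)) ‖T‖ (fun n v => by
    rw [ContinuousLinearMap.comp_apply]
    refine (T.le_opNorm _).trans ?_
    gcongr
    exact norm_coord_le v n)

lemma mapL_apply (T : G →L[𝕜] H) (x : lp (fun _ : ℕ => G) ⊤) (n : ℕ) : mapL T x n = T (x n) := rfl

/-- Bounded sequences in isomorphic spaces. -/
noncomputable def mapE (e : G ≃L[𝕜] H) : lp (fun _ : ℕ => G) ⊤ ≃L[𝕜] lp (fun _ : ℕ => H) ⊤ :=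
  ContinuousLinearEquiv.equivOfInverse (mapL (e : G →L[𝕜] H)) (mapL (e.symm : H →L[𝕜] G))
    (fun x => by
      ext1; funext n
      rw [mapL_apply, mapL_apply]
      exact e.symm_apply_apply _)
    (fun x => by
      ext1; funext n
      rw [mapL_apply, mapL_apply]
      exact e.apply_symm_apply _)

variable (𝕜 X) in
/-- Double sequences. -/
noncomputable def dbl : lp (fun _ : ℕ => X) ⊤ ≃L[𝕜] lp (fun _ : ℕ => lp (fun _ : ℕ => X) ⊤) ⊤ :=
  ContinuousLinearEquiv.equivOfInverse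
    (toLinf (fun n => toLinf (fun m => evalL 𝕜 X (Nat.pair n m)) 1 (fun n v => by
      rw [one_mul]; exact norm_coord_le _ _)) 1 (fun n v => by
        rw [one_mul]
        exact lp.norm_le_of_forall_le (norm_nonneg _) fun m => norm_coord_le v (Nat.pair n m)))
    (toLinf (fun k => (evalL 𝕜 X (Nat.unpair k).2).comp
      (evalL 𝕜 (lp (fun _ : ℕ => X) ⊤) (Nat.unpair k).1)) 1 (fun n v => by
        rw [one_mul]
        exact (norm_coord_le _ _).trans (norm_coord_le _ _)))
    (fun x => by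
      ext1; funext k
      simp only [toLinf_apply, ContinuousLinearMap.comp_apply, evalL_apply, Nat.pair_unpair])
    (fun y => by
      ext1; funext n
      ext1; funext m
      simp only [toLinf_apply, ContinuousLinearMap.comp_apply, evalL_apply, Nat.unpair_pair])

variable (𝕜 G H) in
/-- Shift of the first coordinates. -/
noncomputable def shift : lp (fun _ : ℕ => G × H) ⊤ ≃L[𝕜] G × lp (fun _ : ℕ => G × H) ⊤ :=
  ContinuousLinearEquiv.equivOfInverse
    (((ContinuousLinearMap.fst 𝕜 G H).comp (evalL 𝕜 (G × H) 0)).prod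
      (toLinf (fun n => ((ContinuousLinearMap.fst 𝕜 G H).comp (evalL 𝕜 (G × H) (n + 1))).prod
        ((ContinuousLinearMap.snd 𝕜 G H).comp (evalL 𝕜 (G × H) n))) 1 (fun n v => by
          rw [one_mul]
          exact max_le (a := ‖(v (n + 1)).1‖) (b := ‖(v n).2‖)
            ((norm_fst_le (v (n + 1))).trans (norm_coord_le v (n + 1)))
            ((norm_snd_le (v n)).trans (norm_coord_le v n)))))
    (toLinf (fun n => (if n = 0 then ContinuousLinearMap.fst 𝕜 G (lp (fun _ : ℕ => G × H) ⊤)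
        else ((ContinuousLinearMap.fst 𝕜 G H).comp (evalL 𝕜 (G × H) (n - 1))).comp
          (ContinuousLinearMap.snd 𝕜 G (lp (fun _ : ℕ => G × H) ⊤))).prod
        (((ContinuousLinearMap.snd 𝕜 G H).comp (evalL 𝕜 (G × H) n)).comp
          (ContinuousLinearMap.snd 𝕜 G (lp (fun _ : ℕ => G × H) ⊤)))) 1 (fun n v => by
        rw [one_mul]
        rcases n with _ | n
        · exact max_le (a := ‖v.1‖) (b := ‖(v.2 0).2‖) (norm_fst_le v)
            ((norm_snd_le (v.2 0)).trans ((norm_coord_le v.2 0).trans (norm_snd_le v)))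
        · exact max_le (a := ‖(v.2 n).1‖) (b := ‖(v.2 (n + 1)).2‖)
            ((norm_fst_le (v.2 n)).trans ((norm_coord_le v.2 n).trans (norm_snd_le v)))
            ((norm_snd_le (v.2 (n + 1))).trans
              ((norm_coord_le v.2 (n + 1)).trans (norm_snd_le v)))))
    (fun x => by
      ext1; funext n
      rcases n with _ | n
      · rfl
      · rfl)
    (fun y => by
      refine Prod.ext rfl ?_
      ext1; funext n
      rfl)

/-- Decomposition method: a space complemented in `ℓ_∞(X)` in which `ℓ_∞(X)` is complemented is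
isomorphic to `ℓ_∞(X)`. -/
theorem decomp2 {F : Type*} [NormedAddCommGroup F] [NormedSpace 𝕜 F]
    (i : lp (fun _ : ℕ => X) ⊤ →L[𝕜] F) (p : F →L[𝕜] lp (fun _ : ℕ => X) ⊤)
    (hip : ∀ x, p (i x) = x)
    (j : F →L[𝕜] lp (fun _ : ℕ => X) ⊤) (q : lp (fun _ : ℕ => X) ⊤ →L[𝕜] F)
    (hjq : ∀ y, q (j y) = y) : Nonempty (lp (fun _ : ℕ => X) ⊤ ≃L[𝕜] F) := by
  obtain ⟨eE⟩ := square_lp 𝕜 X
  have e1 : F ≃L[𝕜] lp (fun _ : ℕ => X) ⊤ × p.ker := ContinuousLinearEquiv.equivOfRightInverse p i hip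
  have e2 : lp (fun _ : ℕ => X) ⊤ ≃L[𝕜] F × q.ker :=
    ContinuousLinearEquiv.equivOfRightInverse q j hjq
  have h1 : F ≃L[𝕜] F × lp (fun _ : ℕ => X) ⊤ := by
    refine e1.trans ?_
    refine ((eE.prodCongr (ContinuousLinearEquiv.refl 𝕜 p.ker)).trans ?_)
    refine (ContinuousLinearEquiv.prodAssoc 𝕜 _ _ p.ker).trans ?_
    refine ((ContinuousLinearEquiv.refl 𝕜 _).prodCongr e1.symm).trans ?_
    exact ContinuousLinearEquiv.prodComm 𝕜 _ F
  have h2 : lp (fun _ : ℕ => X) ⊤ ≃L[𝕜] F × lp (fun _ : ℕ => X) ⊤ := by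
    refine (dbl 𝕜 X).trans ((mapE e2).trans ((shift 𝕜 F q.ker).trans ?_))
    exact (ContinuousLinearEquiv.refl 𝕜 F).prodCongr ((mapE e2).symm.trans (dbl 𝕜 X).symm)
  exact ⟨h2.trans h1.symm⟩

end

end Pool.Agent.X304.Cd
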