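import Pool.Agent.X304.Cd.Rep
import Pool.Agent.X304.Cd.Pel

/-!
# `L_∞(L_r)` is isomorphic to the `ℓ_∞`-sum of the spaces `ℓ_r^n`
-/

set_option autoImplicit false

open MeasureTheory Filter Topology Set
open scoped ENNReal NNReal

namespace Pool.Agent.X304.Cd

open Pool.Agent.Helper234.LInf Pool.Agent.Helper234.LInfS

/-- The `ℓ_∞`-sum of the spaces `ℓ_r^n`, `n ≥ 1`. -/
abbrev BSum (𝕜 : Type) [RCLike 𝕜] (r : ℝ≥0∞) [Fact (1 ≤ r)] : Type :=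
  lp (fun n : ℕ => PiLp r (fun _ : Fin (n + 1) => 𝕜)) ⊤

section

variable {𝕜 : Type} [RCLike 𝕜] {r : ℝ≥0∞} [hr1 : Fact (1 ≤ r)]
  {V : Type*} [NormedAddCommGroup V] [NormedSpace 𝕜 V]

/-- Operators into the sum. -/
noncomputable def toB (g : ∀ n : ℕ, V →L[𝕜] PiLp r (fun _ : Fin (n + 1) => 𝕜))
    (h : ∀ n v, ‖g n v‖ ≤ ‖v‖) : V →L[𝕜] BSum 𝕜 r :=
  LinearMap.mkContinuous
    { toFun := fun v => ⟨fun n => g n v, memℓp_infty ⟨‖v‖, by
        rintro _ ⟨n, rfl⟩; exact h n v⟩⟩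
      map_add' := fun v w => by ext1; funext n; exact (g n).map_add v w
      map_smul' := fun c v => by ext1; funext n; exact (g n).map_smul c v } 1 (fun v => by
        rw [one_mul]
        exact lp.norm_le_of_forall_le (norm_nonneg _) (fun n => h n v))

lemma toB_apply (g : ∀ n : ℕ, V →L[𝕜] PiLp r (fun _ : Fin (n + 1) => 𝕜))
    (h : ∀ n v, ‖g n v‖ ≤ ‖v‖) (v : V) (n : ℕ) : (toB g h v) n = g n v := rfl

lemma norm_coordB_le (x : BSum 𝕜 r) (n : ℕ) : ‖x n‖ ≤ ‖x‖ :=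
  lp.norm_apply_le_norm (by simp) x n

variable (𝕜 r) in
/-- The coordinates. -/
noncomputable def evalB (n : ℕ) : BSum 𝕜 r →L[𝕜] PiLp r (fun _ : Fin (n + 1) => 𝕜) :=
  LinearMap.mkContinuous
    { toFun := fun x => x n
      map_add' := fun v w => by simp
      map_smul' := fun c v => by simp } 1 (fun v => by
        rw [one_mul]; exact norm_coordB_le v n)

lemma evalB_apply (n : ℕ) (x : BSum 𝕜 r) : evalB 𝕜 r n x = x n := rfl

/-- The second half: `ℓ_∞(L_r)` is isomorphic to the sum. -/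
theorem iso2 (hr : r ≠ ∞) : Nonempty (lp (fun _ : ℕ => Lp 𝕜 r I01) ⊤ ≃L[𝕜] BSum 𝕜 r) := by
  let i : lp (fun _ : ℕ => Lp 𝕜 r I01) ⊤ →L[𝕜] BSum 𝕜 r :=
    toB (fun k => (alpha 𝕜 r hr (k + 1)).comp (evalL 𝕜 (Lp 𝕜 r I01) (Nat.unpair k).1))
      fun k v => (alpha_norm_le 𝕜 r hr _ _).trans (norm_coord_le v _)
  let s : ℕ → BSum 𝕜 r →L[𝕜] lp (fun _ : ℕ => Lp 𝕜 r I01) ⊤ := fun n =>
    toLinf (fun l => (beta 𝕜 r hr (Nat.pair n l + 1)).comp (evalB 𝕜 r (Nat.pair n l))) 1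
      fun l v => by
        rw [one_mul]
        exact (beta_norm_le 𝕜 r hr _ _).trans (norm_coordB_le v _)
  have hs : ∀ n v, ‖s n v‖ ≤ ‖v‖ := fun n v =>
    lp.norm_le_of_forall_le (norm_nonneg _) fun l =>
      (beta_norm_le 𝕜 r hr _ _).trans (norm_coordB_le v _)
  let p : BSum 𝕜 r →L[𝕜] lp (fun _ : ℕ => Lp 𝕜 r I01) ⊤ :=
    toLinf (fun n => (Phi 𝕜 hr).comp (s n)) 1 fun n v => by
      rw [one_mul]
      exact (norm_Phi_le hr _).trans (hs n v)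
  have hip : ∀ x, p (i x) = x := by
    intro x
    ext1; funext n
    change Phi 𝕜 hr (s n (i x)) = x n
    apply Phi_of_tendsto
    have h1 : ∀ l, s n (i x) l =
        beta 𝕜 r hr (Nat.pair n l + 1) (alpha 𝕜 r hr (Nat.pair n l + 1) (x n)) := by
      intro l
      change beta 𝕜 r hr (Nat.pair n l + 1) (alpha 𝕜 r hr (Nat.pair n l + 1)
        (x (Nat.unpair (Nat.pair n l)).1)) = _
      rw [Nat.unpair_pair]
    simp only [h1]
    have h2 : Tendsto (fun l => Nat.pair n l + 1) atTop atTop :=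
      tendsto_atTop_mono (fun l => (Nat.right_le_pair n l).trans (Nat.le_succ _)) tendsto_id
    exact (avg_tendsto 𝕜 r hr (x n)).comp h2
  let j : BSum 𝕜 r →L[𝕜] lp (fun _ : ℕ => Lp 𝕜 r I01) ⊤ :=
    toLinf (fun n => (beta 𝕜 r hr (n + 1)).comp (evalB 𝕜 r n)) 1 fun n v => by
      rw [one_mul]
      exact (beta_norm_le 𝕜 r hr _ _).trans (norm_coordB_le v _)
  let q : lp (fun _ : ℕ => Lp 𝕜 r I01) ⊤ →L[𝕜] BSum 𝕜 r :=
    toB (fun n => (alpha 𝕜 r hr (n + 1)).comp (evalL 𝕜 (Lp 𝕜 r I01) n))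
      fun n v => (alpha_norm_le 𝕜 r hr _ _).trans (norm_coord_le v _)
  have hjq : ∀ y, q (j y) = y := by
    intro y
    ext1; funext n
    exact alpha_beta 𝕜 r hr (n + 1) (y n)
  exact decomp2 i p hip j q hjq

/-- The isomorphism. -/
theorem main (hr : r ≠ ∞) : Nonempty (Lp (Lp 𝕜 r I01) ⊤ I01 ≃L[𝕜] BSum 𝕜 r) := by
  obtain ⟨e1⟩ := iso1 (𝕜 := 𝕜) (r := r) hr
  obtain ⟨e2⟩ := iso2 (𝕜 := 𝕜) (r := r) hr
  exact ⟨e1.trans e2⟩

end

end Pool.Agent.X304.Cd
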