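import Pool.Agent.X304.Cd.Lim

/-!
# The representable operators on `L_1` with values in `L_r` are complemented
-/

set_option autoImplicit false

open MeasureTheory Filter Topology Set
open scoped ENNReal NNReal

namespace Pool.Agent.X304.Cd

open Pool.Agent.Helper234.LInf Pool.Agent.Helper234.LInfS

section

variable {𝕜 : Type} [RCLike 𝕜] {r : ℝ≥0∞} [hr1 : Fact (1 ≤ r)]

/-- The truncation of a real number. -/
noncomputable def clamp (K : ℝ) (x : ℝ) : ℝ := max (-K) (min x K)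

lemma clamp_lip (K : ℝ) : LipschitzWith 1 (clamp K) := by
  have h1 : LipschitzWith 1 fun x : ℝ => min x K := LipschitzWith.id.min_const K
  exact h1.const_max (-K)

lemma clamp_zero {K : ℝ} (hK : 0 ≤ K) : clamp K 0 = 0 := by
  rw [clamp, min_eq_left hK, max_eq_right (by linarith)]

lemma abs_clamp_le {K : ℝ} (hK : 0 ≤ K) (x : ℝ) : |clamp K x| ≤ K := by
  rw [abs_le, clamp]
  exact ⟨le_max_left _ _, max_le (by linarith) (min_le_right _ _)⟩

lemma clamp_of_abs_le {K x : ℝ} (h : |x| ≤ K) : clamp K x = x := by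
  rw [abs_le] at h
  rw [clamp, min_eq_left h.2, max_eq_right h.1]

variable (𝕜) in
/-- The truncation of a scalar. -/
noncomputable def tr (K : ℝ) (z : 𝕜) : 𝕜 :=
  ((clamp K (RCLike.re z) : ℝ) : 𝕜) + ((clamp K (RCLike.im z) : ℝ) : 𝕜) * RCLike.I

lemma norm_I_le : ‖(RCLike.I : 𝕜)‖ ≤ 1 := by
  rcases RCLike.I_mul_I_ax (K := 𝕜) with h | h
  · rw [h, norm_zero]
    exact zero_le_one
  · have h1 : ‖(RCLike.I : 𝕜)‖ * ‖(RCLike.I : 𝕜)‖ = 1 := by
      rw [← norm_mul, h, norm_neg, norm_one]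
    nlinarith [norm_nonneg (RCLike.I : 𝕜)]

lemma tr_lip (K : ℝ) : LipschitzWith 2 (tr 𝕜 K) := by
  have h1 : LipschitzWith 1 fun z : 𝕜 => RCLike.re z := by
    apply LipschitzWith.of_dist_le_mul
    intro z w
    rw [NNReal.coe_one, one_mul, Real.dist_eq, dist_eq_norm, ← map_sub]
    exact RCLike.abs_re_le_norm _
  have h2 : LipschitzWith 1 fun z : 𝕜 => RCLike.im z := by
    apply LipschitzWith.of_dist_le_mul
    intro z w
    rw [NNReal.coe_one, one_mul, Real.dist_eq, dist_eq_norm, ← map_sub]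
    exact RCLike.abs_im_le_norm _
  have h3 : LipschitzWith 1 fun x : ℝ => (x : 𝕜) := by
    apply LipschitzWith.of_dist_le_mul
    intro z w
    rw [NNReal.coe_one, one_mul, Real.dist_eq, dist_eq_norm, ← RCLike.ofReal_sub,
      RCLike.norm_ofReal]
  have h4 : LipschitzWith 1 fun z : 𝕜 => z * (RCLike.I : 𝕜) := by
    apply LipschitzWith.of_dist_le_mul
    intro z w
    rw [NNReal.coe_one, one_mul, dist_eq_norm, dist_eq_norm, ← sub_mul, norm_mul]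
    exact mul_le_of_le_one_right (norm_nonneg _) norm_I_le
  have h5 := (h3.comp ((clamp_lip K).comp h1)).add (h4.comp (h3.comp ((clamp_lip K).comp h2)))
  have h6 : (1 * (1 * 1) + 1 * (1 * (1 * 1)) : ℝ≥0) = 2 := by norm_num
  rw [h6] at h5
  exact h5

lemma tr_zero {K : ℝ} (hK : 0 ≤ K) : tr 𝕜 K 0 = 0 := by
  simp [tr, clamp_zero hK]

lemma norm_tr_le {K : ℝ} (hK : 0 ≤ K) (z : 𝕜) : ‖tr 𝕜 K z‖ ≤ 2 * K := by
  calc ‖tr 𝕜 K z‖ ≤ ‖((clamp K (RCLike.re z) : ℝ) : 𝕜)‖ +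
        ‖((clamp K (RCLike.im z) : ℝ) : 𝕜) * RCLike.I‖ := norm_add_le _ _
    _ ≤ K + K := by
      gcongr
      · rw [RCLike.norm_ofReal]
        exact abs_clamp_le hK _
      · rw [norm_mul, RCLike.norm_ofReal]
        calc |clamp K (RCLike.im z)| * ‖(RCLike.I : 𝕜)‖ ≤ K * 1 :=
              mul_le_mul (abs_clamp_le hK _) norm_I_le (norm_nonneg _) hK
          _ = K := mul_one K
    _ = 2 * K := by ring

lemma norm_tr_le' {K : ℝ} (hK : 0 ≤ K) (z : 𝕜) : ‖tr 𝕜 K z‖ ≤ 2 * ‖z‖ := by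
  have := (tr_lip (𝕜 := 𝕜) K).norm_sub_le z 0
  rwa [tr_zero hK, sub_zero, sub_zero, NNReal.coe_ofNat] at this

lemma tr_of_norm_le {K : ℝ} {z : 𝕜} (h : ‖z‖ ≤ K) : tr 𝕜 K z = z := by
  rw [tr, clamp_of_abs_le ((RCLike.abs_re_le_norm z).trans h),
    clamp_of_abs_le ((RCLike.abs_im_le_norm z).trans h), RCLike.re_add_im]

/-- Truncation in `L_r`. -/
noncomputable def Tr (n : ℕ) (f : Lp 𝕜 r I01) : Lp 𝕜 r I01 :=
  (tr_lip (𝕜 := 𝕜) (n : ℝ)).compLp (tr_zero (Nat.cast_nonneg n)) f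

omit hr1 in
lemma Tr_coe (n : ℕ) (f : Lp 𝕜 r I01) : (Tr n f : ℝ → 𝕜) =ᵐ[I01] fun t => tr 𝕜 n (f t) :=
  LipschitzWith.coeFn_compLp _ _ _

lemma Tr_cont (n : ℕ) : Continuous (Tr n : Lp 𝕜 r I01 → Lp 𝕜 r I01) :=
  LipschitzWith.continuous_compLp (tr_lip (𝕜 := 𝕜) (n : ℝ)) (tr_zero (Nat.cast_nonneg n))

lemma Tr_tendsto (hr : r ≠ ∞) (f : Lp 𝕜 r I01) : Tendsto (fun n => Tr n f) atTop (𝓝 f) := by
  refine tendsto_Lp_dom hr (h := fun t => 2 * ‖f t‖) ((Lp.memLp f).norm.const_mul 2)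
    (fun n => ?_) ?_
  · filter_upwards [Tr_coe n f] with t ht
    rw [ht]
    exact norm_tr_le' (Nat.cast_nonneg n) _
  · filter_upwards [ae_all_iff.2 fun n => Tr_coe n f] with t ht
    obtain ⟨n0, hn0⟩ := exists_nat_ge ‖f t‖
    refine tendsto_const_nhds.congr' ?_
    filter_upwards [eventually_ge_atTop n0] with n hn
    rw [ht, tr_of_norm_le]
    exact hn0.trans (by exact_mod_cast hn)

/-- Measurability of a function with values in `L_r` which is a limit in a weak sense. -/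
theorem aesm_of_ae_lim (hr : r ≠ ∞) {S : Type*} [MeasurableSpace S] {μ : Measure S}
    (u : ℕ → S → Lp 𝕜 r I01) (hu : ∀ l, AEStronglyMeasurable (u l) μ) (g : S → Lp 𝕜 r I01)
    (h : ∀ᵐ s ∂μ, ∀ᵐ t ∂I01, Tendsto (fun l => (u l s : ℝ → 𝕜) t) atTop
      (𝓝 ((g s : ℝ → 𝕜) t))) : AEStronglyMeasurable g μ := by
  refine aestronglyMeasurable_of_tendsto_ae atTop (f := fun n s => Tr n (g s)) (fun n => ?_)
    (Eventually.of_forall fun s => Tr_tendsto hr (g s))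
  refine aestronglyMeasurable_of_tendsto_ae atTop (f := fun l s => Tr n (u l s))
    (fun l => (Tr_cont n).comp_aestronglyMeasurable (hu l)) ?_
  filter_upwards [h] with s hs
  refine tendsto_Lp_dom hr (h := fun _ => 2 * (n : ℝ)) (memLp_const _) (fun l => ?_) ?_
  · filter_upwards [Tr_coe n (u l s)] with t ht
    rw [ht]
    exact norm_tr_le (Nat.cast_nonneg n) _
  · filter_upwards [hs, Tr_coe n (g s), ae_all_iff.2 fun l => Tr_coe n (u l s)] with t h1 h2 h3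
    rw [h2]
    simp only [h3]
    exact ((tr_lip (n : ℝ)).continuous.tendsto _).comp h1

/-! ### the scalar field -/

variable (𝕜) in
lemma rnp_scalar : Pool.Agent.Helper234.LInf.RNP 𝕜 𝕜 := by
  rintro F ⟨K, hK⟩
  filter_upwards [hK.ae_differentiableAt_real] with t ht
  refine ⟨deriv F t, (hasDerivAt_iff_tendsto_slope_zero.1 ht.hasDerivAt).congr fun h => ?_⟩
  rw [← RCLike.ofReal_inv]
  exact RCLike.real_smul_eq_coe_smul (K := 𝕜) _ _

/-! ### the sequence of averages of an operator -/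

/-- The averages of an operator at a point. -/
noncomputable def sq (S : Lp 𝕜 1 I01 →L[𝕜] Lp 𝕜 r I01) (s : ℝ) : lp (fun _ : ℕ => Lp 𝕜 r I01) ⊤ :=
  ⟨fun n => gm S n s, memℓp_infty ⟨‖S‖, by
    rintro _ ⟨n, rfl⟩; exact norm_gm_le S n s⟩⟩

lemma sq_apply (S : Lp 𝕜 1 I01 →L[𝕜] Lp 𝕜 r I01) (s : ℝ) (n : ℕ) : sq S s n = gm S n s := rfl

lemma norm_sq_le (S : Lp 𝕜 1 I01 →L[𝕜] Lp 𝕜 r I01) (s : ℝ) : ‖sq S s‖ ≤ ‖S‖ :=
  lp.norm_le_of_forall_le (norm_nonneg _) fun n => norm_gm_le S n s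

lemma sq_add (S T : Lp 𝕜 1 I01 →L[𝕜] Lp 𝕜 r I01) (s : ℝ) : sq (S + T) s = sq S s + sq T s := by
  ext1
  funext n
  change gm (S + T) n s = gm S n s + gm T n s
  simp [gm]

lemma sq_smul (c : 𝕜) (S : Lp 𝕜 1 I01 →L[𝕜] Lp 𝕜 r I01) (s : ℝ) : sq (c • S) s = c • sq S s := by
  ext1
  funext n
  change gm (c • S) n s = c • gm S n s
  simp only [gm, smul_apply]
  rw [smul_comm]

lemma J_gm (S : Lp 𝕜 1 I01 →L[𝕜] Lp 𝕜 r I01) (n : ℕ) (s t : ℝ) :
    J 𝕜 r (Iio t) (gm S n s) = gm ((J 𝕜 r (Iio t)).comp S) n s := by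
  simp only [gm, ContinuousLinearMap.comp_apply]
  rw [RCLike.real_smul_eq_coe_smul (K := 𝕜), RCLike.real_smul_eq_coe_smul (K := 𝕜), map_smul]

lemma F_sq (S : Lp 𝕜 1 I01 →L[𝕜] Lp 𝕜 r I01) (t : ℝ) :
    ∀ᵐ s ∂I01, F (sq S s) t = gl ((J 𝕜 r (Iio t)).comp S) s := by
  filter_upwards [gl_tendsto (rnp_scalar 𝕜) ((J 𝕜 r (Iio t)).comp S)] with s hs
  refine tendsto_nhds_unique (F_spec (sq S s) t) ?_
  refine (hs.mono_left Nat.hyperfilter_le_atTop).congr fun n => ?_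
  rw [sq_apply, J_gm]

lemma w_meas (hr : r ≠ ∞) (S : Lp 𝕜 1 I01 →L[𝕜] Lp 𝕜 r I01) (N : ℕ) :
    AEStronglyMeasurable (fun s => beta 𝕜 r hr N (w 𝕜 r N (sq S s))) I01 := by
  apply (beta 𝕜 r hr N).continuous.comp_aestronglyMeasurable
  apply (PiLp.continuous_toLp r (fun _ : Fin N => 𝕜)).comp_aestronglyMeasurable
  apply AEMeasurable.aestronglyMeasurable
  apply aemeasurable_pi_lambda
  intro j
  have h1 : ∀ t, AEMeasurable (fun s => F (sq S s) t) I01 := by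
    intro t
    have h2 : AEMeasurable (gl ((J 𝕜 r (Iio t)).comp S)) I01 :=
      (gl_memLp (rnp_scalar 𝕜) ((J 𝕜 r (Iio t)).comp S)).1.aemeasurable
    refine h2.congr ?_
    filter_upwards [F_sq S t] with s hs
    exact hs.symm
  exact ((h1 _).sub (h1 _)).const_mul _

lemma phi_meas (hr : r ≠ ∞) (S : Lp 𝕜 1 I01 →L[𝕜] Lp 𝕜 r I01) :
    AEStronglyMeasurable (fun s => Phi 𝕜 hr (sq S s)) I01 :=
  aesm_of_ae_lim hr (fun l s => beta 𝕜 r hr (2 ^ l) (w 𝕜 r (2 ^ l) (sq S s)))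
    (fun l => w_meas hr S (2 ^ l)) _ (Eventually.of_forall fun s => Phi_lim hr (sq S s))

lemma norm_Phi_le (hr : r ≠ ∞) (x : lp (fun _ : ℕ => Lp 𝕜 r I01) ⊤) : ‖Phi 𝕜 hr x‖ ≤ ‖x‖ := by
  have := (Phi 𝕜 hr (r := r)).le_of_opNorm_le (LinearMap.mkContinuous_norm_le _ zero_le_one _) x
  rwa [one_mul] at this

lemma phi_bound (hr : r ≠ ∞) (S : Lp 𝕜 1 I01 →L[𝕜] Lp 𝕜 r I01) (s : ℝ) :
    ‖Phi 𝕜 hr (sq S s)‖ ≤ ‖S‖ := (norm_Phi_le hr _).trans (norm_sq_le S s)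

lemma phi_memLp (hr : r ≠ ∞) (S : Lp 𝕜 1 I01 →L[𝕜] Lp 𝕜 r I01) :
    MemLp (fun s => Phi 𝕜 hr (sq S s)) ⊤ I01 :=
  memLp_top_of_bound (phi_meas hr S) ‖S‖ (Eventually.of_forall fun s => phi_bound hr S s)

/-- The density operator. -/
noncomputable def Q (hr : r ≠ ∞) : (Lp 𝕜 1 I01 →L[𝕜] Lp 𝕜 r I01) →L[𝕜] Lp (Lp 𝕜 r I01) ⊤ I01 :=
  LinearMap.mkContinuous
    { toFun := fun S => (phi_memLp hr S).toLp _
      map_add' := fun S T => by
        rw [← MemLp.toLp_add]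
        apply MemLp.toLp_congr
        refine Eventually.of_forall fun s => ?_
        change Phi 𝕜 hr (sq (S + T) s) = Phi 𝕜 hr (sq S s) + Phi 𝕜 hr (sq T s)
        rw [sq_add, map_add]
      map_smul' := fun c S => by
        rw [RingHom.id_apply, ← MemLp.toLp_const_smul]
        apply MemLp.toLp_congr
        refine Eventually.of_forall fun s => ?_
        change Phi 𝕜 hr (sq (c • S) s) = c • Phi 𝕜 hr (sq S s)
        rw [sq_smul, map_smul] } 1 (fun S => by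
      rw [one_mul]
      have h1 := Lp.norm_le_of_ae_bound (f := (phi_memLp hr S).toLp _) (C := ‖S‖) (norm_nonneg _)
        (by
          filter_upwards [(phi_memLp hr S).coeFn_toLp] with t h1
          rw [h1]; exact phi_bound hr S t)
      simpa using h1)

lemma Q_coe (hr : r ≠ ∞) (S : Lp 𝕜 1 I01 →L[𝕜] Lp 𝕜 r I01) :
    Q hr S =ᵐ[I01] fun s => Phi 𝕜 hr (sq S s) := (phi_memLp hr S).coeFn_toLp

/-- The representable operators are complemented. -/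
theorem repComplemented (hr : r ≠ ∞) : RepComplemented 𝕜 (Lp 𝕜 r I01) := by
  refine ⟨Q hr, fun f S hfS => ?_⟩
  apply Lp.ext
  filter_upwards [Q_coe hr S, dyadic_ae (f : ℝ → Lp 𝕜 r I01) (Lp_top_integrable f)] with t h1 h3
  rw [h1]
  refine Phi_of_tendsto hr _ _ (h3.congr fun m => ?_)
  rw [sq_apply, gm, represents_ind f S hfS]

/-- The first half: `L_∞(L_r)` is isomorphic to `ℓ_∞(L_r)`. -/
theorem iso1 (hr : r ≠ ∞) :
    Nonempty (Lp (Lp 𝕜 r I01) ⊤ I01 ≃L[𝕜] lp (fun _ : ℕ => Lp 𝕜 r I01) ⊤) :=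
  suff 𝕜 (Lp 𝕜 r I01) (limitOperator hr) (repComplemented hr)

end

end Pool.Agent.X304.Cd
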