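import Pool.Agent.X304.Cd.Main

/-!
# The spaces of the question
-/

set_option autoImplicit false

open MeasureTheory Set
open scoped ENNReal

namespace Pool.Agent.X304.Cd

universe u

/-- Lebesgue measure on `[0, 1]`, as a measure on the real line. -/
noncomputable def lam : Measure ℝ := (volume : Measure ℝ).restrict (Icc (0 : ℝ) 1)

/-- The space `L_r[0,1]` with scalars `𝕜`. -/
def Lr (𝕜 : Type) [RCLike 𝕜] (r : ℝ≥0∞) : Type := Lp 𝕜 r lam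

noncomputable instance (𝕜 : Type) [RCLike 𝕜] (r : ℝ≥0∞) [Fact (1 ≤ r)] :
    NormedAddCommGroup (Lr 𝕜 r) :=
  (Lp.instNormedAddCommGroup : NormedAddCommGroup (Lp 𝕜 r lam))

noncomputable instance (𝕜 : Type) [RCLike 𝕜] (r : ℝ≥0∞) [Fact (1 ≤ r)] :
    NormedSpace 𝕜 (Lr 𝕜 r) :=
  (Lp.instNormedSpace : NormedSpace 𝕜 (Lp 𝕜 r lam))

/-- The space `L_∞(X)` of classes of essentially bounded strongly measurable functions from `[0, 1]`
to `X`. -/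
def Linf (X : Type u) [NormedAddCommGroup X] : Type u := Lp X ⊤ lam

noncomputable instance (X : Type u) [NormedAddCommGroup X] : NormedAddCommGroup (Linf X) :=
  (Lp.instNormedAddCommGroup : NormedAddCommGroup (Lp X ⊤ lam))

noncomputable instance (𝕜 : Type) [RCLike 𝕜] (X : Type u) [NormedAddCommGroup X]
    [NormedSpace 𝕜 X] : NormedSpace 𝕜 (Linf X) :=
  (Lp.instNormedSpace : NormedSpace 𝕜 (Lp X ⊤ lam))

/-- The space `ℓ_r^n` with scalars `𝕜`. -/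
def ell (𝕜 : Type) [RCLike 𝕜] (r : ℝ≥0∞) (n : ℕ) : Type := PiLp r (fun _ : Fin n => 𝕜)

noncomputable instance (𝕜 : Type) [RCLike 𝕜] (r : ℝ≥0∞) [Fact (1 ≤ r)] (n : ℕ) :
    NormedAddCommGroup (ell 𝕜 r n) :=
  (PiLp.normedAddCommGroup r (fun _ : Fin n => 𝕜) : NormedAddCommGroup (PiLp r (fun _ : Fin n => 𝕜)))

noncomputable instance (𝕜 : Type) [RCLike 𝕜] (r : ℝ≥0∞) [Fact (1 ≤ r)] (n : ℕ) :
    NormedSpace 𝕜 (ell 𝕜 r n) :=
  (PiLp.normedSpace r 𝕜 (fun _ : Fin n => 𝕜) : NormedSpace 𝕜 (PiLp r (fun _ : Fin n => 𝕜)))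

/-- The `ℓ_∞`-sum of a sequence of normed spaces. -/
def SumInf (E : ℕ → Type u) [∀ n, NormedAddCommGroup (E n)] : Type u := lp E ⊤

noncomputable instance (E : ℕ → Type u) [∀ n, NormedAddCommGroup (E n)] :
    NormedAddCommGroup (SumInf E) :=
  (lp.normedAddCommGroup : NormedAddCommGroup (lp E ⊤))

noncomputable instance (𝕜 : Type) [RCLike 𝕜] (E : ℕ → Type u) [∀ n, NormedAddCommGroup (E n)]
    [∀ n, NormedSpace 𝕜 (E n)] : NormedSpace 𝕜 (SumInf E) :=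
  (lp.instNormedSpace : NormedSpace 𝕜 (lp E ⊤))

/-- The space `B_{r,∞}`: the `ℓ_∞`-sum of the spaces `ℓ_r^n`, `n ≥ 1`. -/
abbrev B (𝕜 : Type) [RCLike 𝕜] (r : ℝ≥0∞) [Fact (1 ≤ r)] : Type :=
  SumInf fun n : ℕ => ell 𝕜 r (n + 1)

theorem main' (𝕜 : Type) [RCLike 𝕜] (r : ℝ≥0∞) [Fact (1 ≤ r)] (hr : r ≠ ∞) :
    Nonempty (Linf (Lr 𝕜 r) ≃L[𝕜] B 𝕜 r) := main hr

end Pool.Agent.X304.Cd
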